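import Mathlib

/-!
# Profinite CA-groups with a generalized quaternion quotient
-/

set_option autoImplicit false
set_option linter.unusedSectionVars false

open scoped Topology

namespace Pool.Agent.Results.MP_427463_al.AllQuaternionQuotients

universe u

/-- `G` is a CA-group: the centralizer of every nontrivial element is abelian. -/
def IsCA (G : Type u) [Group G] : Prop :=
  ∀ x : G, x ≠ 1 → ∀ a b : G, a * x = x * a → b * x = x * b → a * b = b * a

/-- `G` is profinite: a compact Hausdorff totally disconnected topological group. -/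
def IsProfinite (G : Type u) [Group G] [TopologicalSpace G] : Prop :=
  IsTopologicalGroup G ∧ CompactSpace G ∧ T2Space G ∧ TotallyDisconnectedSpace G

open QuaternionGroup

/-- quaternions over the two-adic integers, as additive group -/
abbrev H : Type := Fin 4 → ℤ_[2]

/-- left multiplication by `i` -/
noncomputable def I (c : H) : H := ![-c 1, c 0, -c 3, c 2]
/-- left multiplication by `j` -/
noncomputable def J (c : H) : H := ![-c 2, c 3, c 0, -c 1]

theorem I_add (c e : H) : I (c + e) = I c + I e := by
  funext k; fin_cases k <;> simp [I] <;> ring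
theorem J_add (c e : H) : J (c + e) = J c + J e := by
  funext k; fin_cases k <;> simp [J] <;> ring
theorem I_zero : I 0 = 0 := by
  funext k; fin_cases k <;> simp [I]
theorem J_zero : J 0 = 0 := by
  funext k; fin_cases k <;> simp [J]
theorem I_neg (c : H) : I (-c) = -I c := by
  funext k; fin_cases k <;> simp [I]
theorem J_neg (c : H) : J (-c) = -J c := by
  funext k; fin_cases k <;> simp [J]
theorem I_I (c : H) : I (I c) = -c := by
  funext k; fin_cases k <;> simp [I]
theorem J_J (c : H) : J (J c) = -c := by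
  funext k; fin_cases k <;> simp [J]
theorem I_J (c : H) : I (J (I c)) = J c := by
  funext k; fin_cases k <;> simp [I, J]

/-- the parity of the sum of the coordinates -/
noncomputable def par (v : H) : ZMod 2 := PadicInt.toZMod (v 0 + v 1 + v 2 + v 3)

theorem par_add (v w : H) : par (v + w) = par v + par w := by
  simp only [par, Pi.add_apply, ← map_add]
  congr 1; ring
theorem par_zero : par 0 = 0 := by simp [par]
theorem par_neg (v : H) : par (-v) = par v := by
  have h : par (-v) + par v = 0 := by rw [← par_add, neg_add_cancel, par_zero]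
  rw [← CharTwo.neg_eq (par v)]
  exact eq_neg_of_add_eq_zero_left h
theorem toZMod_two_mul (x : ℤ_[2]) : (PadicInt.toZMod (2 * x) : ZMod 2) = 0 := by
  rw [map_mul, map_ofNat]
  have : (2 : ZMod 2) = 0 := by decide
  rw [this, zero_mul]
theorem par_I (v : H) : par (I v) = par v := by
  have h : par (I v) = par v + PadicInt.toZMod (2 * (- v 1 - v 3)) := by
    simp only [par, I, ← map_add]
    congr 1
    simp
    ring
  rw [h, toZMod_two_mul, add_zero]
theorem par_J (v : H) : par (J v) = par v := by
  have h : par (J v) = par v + PadicInt.toZMod (2 * (- v 1 - v 2)) := by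
    simp only [par, J, ← map_add]
    congr 1
    simp
    ring
  rw [h, toZMod_two_mul, add_zero]

/-- The key parity computation. -/
theorem par_key (c v w : H) (hv : (2 : ℤ) • v = c - I c) (hw : (2 : ℤ) • w = c - J c) :
    par w = 0 := by
  have v0 := congrFun hv 0
  have w0 := congrFun hw 0
  have w1 := congrFun hw 1
  have w2 := congrFun hw 2
  have w3 := congrFun hw 3
  simp [I, J] at v0 w0 w1 w2 w3
  have h2 : (2 : ℤ_[2]) ≠ 0 := by norm_num
  have hsum : w 0 + w 1 + w 2 + w 3 = 2 * (v 0 + w 2 - c 0 + c 0 - c 0 + c 0) := by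
    apply mul_left_cancel₀ h2
    linear_combination w0 + w1 + w2 + w3 - 2 * v0 - 2 * w2
  unfold par
  rw [hsum, toZMod_two_mul]

theorem continuous_I : Continuous I := by
  unfold I
  refine continuous_pi fun k => ?_
  fin_cases k <;> simp <;> fun_prop
theorem continuous_J : Continuous J := by
  unfold J
  refine continuous_pi fun k => ?_
  fin_cases k <;> simp <;> fun_prop

theorem isClosed_toZMod (t : ZMod 2) : IsClosed {x : ℤ_[2] | (PadicInt.toZMod x : ZMod 2) = t} := by
  have h : {x : ℤ_[2] | (PadicInt.toZMod x : ZMod 2) = t} = Metric.ball (t.val : ℤ_[2]) 1 := by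
    ext x
    rw [Metric.mem_ball, dist_eq_norm, ← PadicInt.mem_nonunits, ← IsLocalRing.mem_maximalIdeal,
      ← PadicInt.ker_toZMod, RingHom.mem_ker, map_sub, map_natCast, ZMod.natCast_zmod_val,
      sub_eq_zero]
    rfl
  rw [h]
  exact IsUltrametricDist.isClosed_ball _ _

theorem isClosed_par (t : ZMod 2) : IsClosed {v : H | par v = t} := by
  have : Continuous (fun v : H => v 0 + v 1 + v 2 + v 3) := by fun_prop
  exact (isClosed_toZMod t).preimage this

/-! ### The generalized quaternion group -/

/-- the character of the quaternion group with cyclic kernel `⟨a⟩` -/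
def chi {n : ℕ} : QuaternionGroup n → ZMod 2
  | a _ => 0
  | xa _ => 1

theorem chi_mul {n : ℕ} (g h : QuaternionGroup n) : chi (g * h) = chi g + chi h := by
  rcases g with i | i <;> rcases h with j | j
  · rfl
  · rfl
  · rfl
  · change (0 : ZMod 2) = 1 + 1
    decide

theorem chi_one {n : ℕ} : chi (1 : QuaternionGroup n) = 0 := rfl

theorem chi_inv {n : ℕ} (g : QuaternionGroup n) : chi g⁻¹ = chi g := by
  have h : chi g⁻¹ + chi g = 0 := by rw [← chi_mul, inv_mul_cancel, chi_one]
  rw [← CharTwo.neg_eq (chi g)]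
  exact eq_neg_of_add_eq_zero_left h

/-- In `ℤ/2^N`: if `2^s c ≠ 0` then some multiple of `c` is `2^(N-1-s)`. -/
theorem exists_mul (N s : ℕ) (c : ZMod (2 ^ N)) (hc : (2 : ZMod (2 ^ N)) ^ s * c ≠ 0) :
    ∃ k : ℕ, (k : ZMod (2 ^ N)) * c = 2 ^ (N - 1 - s) ∧ s + 1 ≤ N := by
  have hne : NeZero (2 ^ N) := ⟨pow_ne_zero _ (by norm_num)⟩
  have hc0 : c.val ≠ 0 := by
    intro h
    apply hc
    rw [(ZMod.val_eq_zero c).1 h, mul_zero]
  obtain ⟨e, c', hc', he⟩ := Nat.exists_eq_two_pow_mul_odd hc0
  have hcv : c = (2 : ZMod (2 ^ N)) ^ e * (c' : ZMod (2 ^ N)) := by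
    conv_lhs => rw [← ZMod.natCast_zmod_val c, he]
    push_cast; rfl
  have h2N : (2 : ZMod (2 ^ N)) ^ N = 0 := by
    have := ZMod.natCast_self (2 ^ N)
    push_cast at this
    exact this
  have hes : s + e < N := by
    by_contra hlt
    apply hc
    rw [hcv, ← mul_assoc, ← pow_add]
    obtain ⟨r, hr⟩ : ∃ r, s + e = N + r := ⟨s + e - N, by omega⟩
    rw [hr, pow_add, h2N, zero_mul, zero_mul]
  have hcop : Nat.Coprime c' (2 ^ N) := (Nat.Coprime.pow_right N (Nat.coprime_two_right.2 hc'))
  set t : ZMod (2 ^ N) := (((ZMod.unitOfCoprime c' hcop)⁻¹ : (ZMod (2 ^ N))ˣ) : ZMod (2 ^ N)) with ht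
  have htc : t * (c' : ZMod (2 ^ N)) = 1 := by
    rw [ht]
    exact Units.inv_mul (ZMod.unitOfCoprime c' hcop)
  refine ⟨(2 ^ (N - 1 - s - e) * t : ZMod (2 ^ N)).val, ?_, by omega⟩
  rw [ZMod.natCast_zmod_val, hcv]
  calc (2 : ZMod (2 ^ N)) ^ (N - 1 - s - e) * t * (2 ^ e * (c' : ZMod (2 ^ N)))
      = (2 ^ (N - 1 - s - e) * 2 ^ e) * (t * c') := by ring
    _ = 2 ^ (N - 1 - s) := by
        rw [htc, mul_one, ← pow_add]
        congr 1
        omega

theorem a_pow {n : ℕ} (c : ZMod (2 * n)) (k : ℕ) :
    (a c : QuaternionGroup n) ^ k = a ((k : ZMod (2 * n)) * c) := by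
  induction k with
  | zero => rw [pow_zero, Nat.cast_zero, zero_mul]; rfl
  | succ k ih =>
    rw [pow_succ, ih, a_mul_a]
    congr 1
    push_cast; ring

section main

variable (l : ℕ)

/-- `d = 2^l` -/
abbrev dd : ℕ := 2 ^ l

/-- The generalized quaternion group of order `2^(l+3)`. -/
abbrev Q : Type := QuaternionGroup (2 * dd l)

theorem modulus_eq : 2 * (2 * dd l) = 2 ^ (l + 2) := by
  simp only [dd, pow_succ]; ring

/-- every nontrivial element has a power equal to the involution -/
theorem pow_eq_z (q : Q l) (hq : q ≠ 1) : ∃ k : ℕ, q ^ k = a ((2 * dd l : ℕ) : ZMod (2 * (2 * dd l))) := by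
  rcases q with c | c
  · have hc : c ≠ 0 := by rintro rfl; exact hq rfl
    have key : ∀ (M : ℕ) (hM : M = 2 ^ (l + 2)) (c : ZMod M), c ≠ 0 →
        ∃ k : ℕ, (k : ZMod M) * c = ((2 * dd l : ℕ) : ZMod M) := by
      intro M hM c hc
      subst hM
      obtain ⟨k, hk, -⟩ := exists_mul (l + 2) 0 c (by simpa using hc)
      refine ⟨k, ?_⟩
      rw [hk]
      have h1 : l + 2 - 1 - 0 = l + 1 := by omega
      rw [h1, pow_succ]
      push_cast
      ring
    obtain ⟨k, hk⟩ := key _ (modulus_eq l) c hc
    exact ⟨k, by rw [a_pow, hk]⟩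
  · refine ⟨2, ?_⟩
    rw [pow_two, xa_mul_xa]
    congr 1
    ring

/-- a noncentral element of `⟨a⟩` has a power equal to `a (2^l)`. -/
theorem pow_eq_d (c : ZMod (2 * (2 * dd l))) (hc : c + c ≠ 0) :
    ∃ k : ℕ, (a c : Q l) ^ k = a ((dd l : ℕ) : ZMod (2 * (2 * dd l))) := by
  have key : ∀ (M : ℕ) (hM : M = 2 ^ (l + 2)) (c : ZMod M), c + c ≠ 0 →
      ∃ k : ℕ, (k : ZMod M) * c = ((dd l : ℕ) : ZMod M) := by
    intro M hM c hc
    subst hM
    obtain ⟨k, hk, -⟩ := exists_mul (l + 2) 1 c (by rw [pow_one, two_mul]; exact hc)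
    refine ⟨k, ?_⟩
    rw [hk]
    have h1 : l + 2 - 1 - 1 = l := by omega
    rw [h1]
    push_cast
    rfl
  obtain ⟨k, hk⟩ := key _ (modulus_eq l) c hc
  exact ⟨k, by rw [a_pow, hk]⟩

/-- A subgroup with two non-commuting elements contains `a (2^l)` and some `xa b`. -/
theorem contains (S : Subgroup (Q l)) (q r : Q l) (hq : q ∈ S) (hr : r ∈ S) (h : q * r ≠ r * q) :
    (a ((dd l : ℕ) : ZMod (2 * (2 * dd l))) : Q l) ∈ S ∧ ∃ b, (xa b : Q l) ∈ S := by
  -- the case of an `a` and an `xa`
  have key : ∀ c b : ZMod (2 * (2 * dd l)), (a c : Q l) ∈ S → (xa b : Q l) ∈ S →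
      (a c : Q l) * xa b ≠ xa b * a c →
      (a ((dd l : ℕ) : ZMod (2 * (2 * dd l))) : Q l) ∈ S ∧ ∃ b, (xa b : Q l) ∈ S := by
    intro c b hc hb hne
    refine ⟨?_, b, hb⟩
    have hcc : c + c ≠ 0 := by
      intro hcc
      apply hne
      rw [a_mul_xa, xa_mul_a]
      congr 1
      linear_combination -hcc
    obtain ⟨k, hk⟩ := pow_eq_d l c hcc
    rw [← hk]
    exact S.pow_mem hc k
  rcases q with c | b <;> rcases r with c' | b'
  · exfalso
    apply h
    rw [a_mul_a, a_mul_a, add_comm]
  · exact key c b' hq hr h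
  · exact key c' b hr hq (Ne.symm h)
  · have hprod : (a (((2 * dd l : ℕ) : ZMod (2 * (2 * dd l))) + b' - b) : Q l) ∈ S := by
      have := S.mul_mem hq hr
      rwa [xa_mul_xa] at this
    refine key _ b hprod hq ?_
    intro hcomm
    apply h
    have h1 : (xa b : Q l) * xa b' = a (((2 * dd l : ℕ) : ZMod (2 * (2 * dd l))) + b' - b) :=
      xa_mul_xa _ _
    -- `xa b` commutes with `xa b * xa b'`, hence with `xa b'`
    rw [← h1] at hcomm
    have h2 : (xa b : Q l) * (xa b' * xa b) = xa b * (xa b * xa b') := by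
      rw [← mul_assoc]; exact hcomm
    exact (mul_left_cancel h2).symm

/-- the element `a (2^l)` of order four -/
abbrev ad : Q l := a ((dd l : ℕ) : ZMod (2 * (2 * dd l)))
/-- the central involution -/
abbrev zz : Q l := a ((2 * dd l : ℕ) : ZMod (2 * (2 * dd l)))

theorem ad_ad : ad l * ad l = zz l := by
  rw [a_mul_a]; congr 1; push_cast; ring

theorem two_mul_zz : (((2 * dd l : ℕ) : ZMod (2 * (2 * dd l))) + ((2 * dd l : ℕ) : ZMod (2 * (2 * dd l)))) = 0 := by
  have h1 := ZMod.natCast_self (2 * (2 * dd l))
  have h2 : ((2 * dd l + 2 * dd l : ℕ) : ZMod (2 * (2 * dd l))) = 0 := by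
    have h3 : 2 * dd l + 2 * dd l = 2 * (2 * dd l) := by ring
    rw [h3]; exact h1
  rwa [Nat.cast_add] at h2

theorem zz_comm (g : Q l) : zz l * g = g * zz l := by
  rcases g with c | c
  · rw [a_mul_a, a_mul_a, add_comm]
  · rw [a_mul_xa, xa_mul_a]
    congr 1
    linear_combination -two_mul_zz l

/-- the functions -/
abbrev Fn : Type := ZMod (2 * (2 * dd l)) → Q l → H

/-- The ambient group: pairs of a function and an element of the quaternion group. -/
@[ext] structure E where
  /-- the function -/
  f : Fn l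
  /-- the element of the quaternion group -/
  q : Q l

namespace E
variable {l}

noncomputable instance : Mul (E l) := ⟨fun x y => ⟨fun b g => x.f b g + y.f b (g * x.q), x.q * y.q⟩⟩
noncomputable instance : One (E l) := ⟨⟨0, 1⟩⟩
noncomputable instance : Inv (E l) := ⟨fun x => ⟨fun b g => - x.f b (g * x.q⁻¹), x.q⁻¹⟩⟩

theorem mul_f (x y : E l) (b : ZMod (2 * (2 * dd l))) (g : Q l) :
    (x * y).f b g = x.f b g + y.f b (g * x.q) := rfl
theorem mul_q (x y : E l) : (x * y).q = x.q * y.q := rfl
theorem one_f (b : ZMod (2 * (2 * dd l))) (g : Q l) : (1 : E l).f b g = 0 := rfl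
theorem one_q : (1 : E l).q = 1 := rfl
theorem inv_f (x : E l) (b : ZMod (2 * (2 * dd l))) (g : Q l) :
    (x⁻¹).f b g = - x.f b (g * x.q⁻¹) := rfl
theorem inv_q (x : E l) : (x⁻¹).q = x.q⁻¹ := rfl

noncomputable instance : Group (E l) :=
  Group.ofLeftAxioms
    (by
      intro x y z
      ext1
      · funext b g
        simp only [mul_f, mul_q, mul_assoc, add_assoc]
      · simp only [mul_q, mul_assoc])
    (by
      intro x
      ext1
      · funext b g
        simp only [mul_f, one_f, one_q, mul_one, zero_add]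
      · simp only [mul_q, one_q, one_mul])
    (by
      intro x
      ext1
      · funext b g
        simp only [mul_f, inv_f, inv_q, one_f, neg_add_cancel]
      · simp only [mul_q, inv_q, one_q, inv_mul_cancel])

/-- discrete topology on the quaternion group -/
local instance topQ : TopologicalSpace (Q l) := ⊥
local instance discQ : DiscreteTopology (Q l) := ⟨rfl⟩

/-- The underlying pair. -/
def toProd (x : E l) : Fn l × Q l := (x.f, x.q)

noncomputable instance : TopologicalSpace (E l) := TopologicalSpace.induced toProd inferInstance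

/-- The homeomorphism with the product. -/
noncomputable def homeo : E l ≃ₜ Fn l × Q l where
  toFun := toProd
  invFun p := ⟨p.1, p.2⟩
  left_inv _ := rfl
  right_inv _ := rfl
  continuous_toFun := continuous_induced_dom
  continuous_invFun := continuous_induced_rng.2 continuous_id

theorem continuous_f : Continuous (fun x : E l => x.f) := continuous_fst.comp homeo.continuous
theorem continuous_q : Continuous (fun x : E l => x.q) := continuous_snd.comp homeo.continuous

theorem continuous_mk {Z : Type*} [TopologicalSpace Z] {f : Z → Fn l} {g : Z → Q l}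
    (hf : Continuous f) (hg : Continuous g) : Continuous (fun z => (⟨f z, g z⟩ : E l)) :=
  homeo.symm.continuous.comp (hf.prodMk hg)

theorem continuous_twist {Z : Type*} [TopologicalSpace Z] {f : Z → Fn l} {h : Z → Q l}
    (hf : Continuous f) (hh : Continuous h) (b : ZMod (2 * (2 * dd l))) :
    Continuous (fun z => f z b (h z)) := by
  have h1 : Continuous (fun p : Q l × (Q l → H) => p.2 p.1) := by
    rw [continuous_prod_of_discrete_left]
    intro q
    exact continuous_apply q
  exact h1.comp (hh.prodMk ((continuous_apply b).comp hf))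

instance : IsTopologicalGroup (E l) where
  continuous_mul := by
    have h1 : Continuous (fun p : E l × E l => p.1.q) := continuous_q.comp continuous_fst
    have h2 : Continuous (fun p : E l × E l => p.2.q) := continuous_q.comp continuous_snd
    have h3 : Continuous (fun p : E l × E l => p.1.f) := continuous_f.comp continuous_fst
    have h4 : Continuous (fun p : E l × E l => p.2.f) := continuous_f.comp continuous_snd
    have hm : Continuous (fun p : Q l × Q l => p.1 * p.2) := continuous_of_discreteTopology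
    refine continuous_mk ?_ (hm.comp (h1.prodMk h2))
    refine continuous_pi fun b => continuous_pi fun g => ?_
    refine Continuous.add ((continuous_apply g).comp ((continuous_apply b).comp h3)) ?_
    exact continuous_twist h4 (hm.comp (continuous_const.prodMk h1)) b
  continuous_inv := by
    have hm : Continuous (fun p : Q l => p⁻¹) := continuous_of_discreteTopology
    refine continuous_mk ?_ (hm.comp continuous_q)
    refine continuous_pi fun b => continuous_pi fun g => ?_
    have hm2 : Continuous (fun p : Q l => g * p⁻¹) := continuous_of_discreteTopology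
    exact (continuous_twist continuous_f (hm2.comp continuous_q) b).neg

instance : T2Space (E l) := homeo.isEmbedding.t2Space

instance : CompactSpace (E l) := by
  have : NeZero (2 * dd l) := ⟨by positivity⟩
  exact homeo.symm.compactSpace

instance : TotallyDisconnectedSpace (E l) := by
  constructor
  intro s _ hs x hx y hy
  apply homeo.injective
  exact (hs.image homeo homeo.continuous.continuousOn).subsingleton (Set.mem_image_of_mem _ hx)
    (Set.mem_image_of_mem _ hy)

end E

/-- The group `G`: the pairs `(f, q)` with `f` equivariant for all embeddings of the quaternion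
group of order eight, and of parity `χ(q)`. -/
noncomputable def G : Subgroup (E l) where
  carrier := {x | (∀ b g, x.f b (ad l * g) = I (x.f b g)) ∧
    (∀ b g, x.f b ((xa b : Q l) * g) = J (x.f b g)) ∧ ∀ b g, par (x.f b g) = chi x.q}
  mul_mem' := by
    rintro x y ⟨x1, x2, x3⟩ ⟨y1, y2, y3⟩
    refine ⟨?_, ?_, ?_⟩
    · intro b g
      rw [E.mul_f, E.mul_f, x1, mul_assoc, y1, I_add]
    · intro b g
      rw [E.mul_f, E.mul_f, x2, mul_assoc, y2, J_add]
    · intro b g
      rw [E.mul_f, E.mul_q, par_add, x3, y3, chi_mul]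
  one_mem' := by
    refine ⟨?_, ?_, ?_⟩
    · intro b g
      rw [E.one_f, E.one_f, I_zero]
    · intro b g
      rw [E.one_f, E.one_f, J_zero]
    · intro b g
      rw [E.one_f, E.one_q, par_zero, chi_one]
  inv_mem' := by
    rintro x ⟨x1, x2, x3⟩
    refine ⟨?_, ?_, ?_⟩
    · intro b g
      rw [E.inv_f, E.inv_f, mul_assoc, x1, I_neg]
    · intro b g
      rw [E.inv_f, E.inv_f, mul_assoc, x2, J_neg]
    · intro b g
      rw [E.inv_f, E.inv_q, par_neg, x3, chi_inv]

theorem mem_G (x : E l) : x ∈ G l ↔ (∀ b g, x.f b (ad l * g) = I (x.f b g)) ∧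
    (∀ b g, x.f b ((xa b : Q l) * g) = J (x.f b g)) ∧ ∀ b g, par (x.f b g) = chi x.q := Iff.rfl

theorem f_zz (x : E l) (hx : x ∈ G l) (b : ZMod (2 * (2 * dd l))) (g : Q l) :
    x.f b (g * zz l) = - x.f b g := by
  rw [← zz_comm, ← ad_ad, mul_assoc, hx.1, hx.1, I_I]

theorem two_smul_cancel {x y : H} (h : (2 : ℤ) • x = (2 : ℤ) • y) : x = y := by
  funext k
  have := congrFun h k
  simp only [Pi.smul_apply, zsmul_eq_mul] at this
  have h2 : ((2 : ℤ) : ℤ_[2]) ≠ 0 := by norm_num
  exact mul_left_cancel₀ h2 this

/-- the group is a CA-group -/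
theorem isCA : IsCA (G l) := by
  rintro ⟨x, hx⟩ hx1 ⟨y, hy⟩ ⟨w, hw⟩ hyx hwx
  have hyx' : y * x = x * y := congrArg Subtype.val hyx
  have hwx' : w * x = x * w := congrArg Subtype.val hwx
  apply Subtype.ext
  change y * w = w * y
  by_cases hxq : x.q = 1
  · -- `x` is a nontrivial element of the abelian normal subgroup
    have hxf : ∃ b g, x.f b g ≠ 0 := by
      by_contra hcon
      push Not at hcon
      apply hx1
      apply Subtype.ext
      apply E.ext
      · funext b g; exact hcon b g
      · exact hxq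
    obtain ⟨b, g, hbg⟩ := hxf
    have key : ∀ v : E l, v * x = x * v → v.q = 1 := by
      intro v hv
      by_contra hvq
      obtain ⟨k, hk⟩ := pow_eq_z l v.q hvq
      -- `x.f` is invariant under right translation by `v.q`
      have hinv : ∀ g', x.f b (g' * v.q) = x.f b g' := by
        intro g'
        have h1 := congrArg (fun u : E l => u.f b g') hv
        simp only [E.mul_f, hxq, mul_one] at h1
        rw [add_comm (x.f b g')] at h1
        exact add_left_cancel h1
      have hinvk : ∀ (k : ℕ) g', x.f b (g' * v.q ^ k) = x.f b g' := by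
        intro k
        induction k with
        | zero => intro g'; rw [pow_zero, mul_one]
        | succ k ih => intro g'; rw [pow_succ, ← mul_assoc, hinv, ih]
      have h2 := hinvk k g
      rw [hk, f_zz l x hx] at h2
      apply hbg
      apply two_smul_cancel
      rw [smul_zero, two_smul]
      nth_rewrite 1 [← h2]
      exact neg_add_cancel _
    have hyq := key y hyx'
    have hwq := key w hwx'
    apply E.ext
    · funext b g
      rw [E.mul_f, E.mul_f, hyq, hwq, mul_one, add_comm]
    · rw [E.mul_q, E.mul_q, hyq, hwq]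
  · -- pass to a power of `x` lying over the involution
    obtain ⟨k, hk⟩ := pow_eq_z l x.q hxq
    set t := x ^ k with ht
    have htG : t ∈ G l := (G l).pow_mem hx k
    have hpowq : ∀ (v : E l) (k : ℕ), (v ^ k).q = v.q ^ k := by
      intro v k
      induction k with
      | zero => rfl
      | succ k ih => rw [pow_succ, pow_succ, E.mul_q, ih]
    have htq : t.q = zz l := by rw [ht, hpowq, hk]
    have hyt : y * t = t * y := (Commute.pow_right hyx' k).eq
    have hwt : w * t = t * w := (Commute.pow_right hwx' k).eq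
    -- the equation for elements of the centralizer of `t`
    have heq : ∀ v ∈ G l, v * t = t * v → ∀ b g, (2 : ℤ) • v.f b g = t.f b g - t.f b (g * v.q) := by
      intro v hv hvt b g
      have h1 := congrArg (fun u : E l => u.f b g) hvt
      simp only [E.mul_f, htq] at h1
      rw [f_zz l v hv] at h1
      rw [two_smul]
      have h2 : v.f b g = t.f b g + -v.f b g - t.f b (g * v.q) := eq_sub_of_add_eq h1
      nth_rewrite 1 [h2]
      abel
    -- commuting in the quotient suffices
    by_cases hq : y.q * w.q = w.q * y.q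
    · apply E.ext
      · funext b g
        apply two_smul_cancel
        rw [E.mul_f, E.mul_f, smul_add, smul_add, heq y hy hyt, heq w hw hwt, heq y hy hyt,
          heq w hw hwt, mul_assoc, mul_assoc, hq]
        abel
      · exact hq
    · exfalso
      -- the image of the centralizer
      let K : Subgroup (E l) := G l ⊓ Subgroup.centralizer {t}
      let π : E l →* Q l := ⟨⟨fun u => u.q, rfl⟩, fun _ _ => rfl⟩
      have hyK : y ∈ K := ⟨hy, Subgroup.mem_centralizer_singleton_iff.2 hyt⟩
      have hwK : w ∈ K := ⟨hw, Subgroup.mem_centralizer_singleton_iff.2 hwt⟩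
      obtain ⟨⟨v₁, ⟨hv₁G, hv₁c⟩, hv₁q⟩, b, ⟨v₂, ⟨hv₂G, hv₂c⟩, hv₂q⟩⟩ :=
        contains l (K.map π) y.q w.q ⟨y, hyK, rfl⟩ ⟨w, hwK, rfl⟩ hq
      have e1 := heq v₁ hv₁G (Subgroup.mem_centralizer_singleton_iff.1 hv₁c) b 1
      have e2 := heq v₂ hv₂G (Subgroup.mem_centralizer_singleton_iff.1 hv₂c) b 1
      have hv₁q' : v₁.q = ad l * 1 := by rw [mul_one]; exact hv₁q
      have hv₂q' : v₂.q = (xa b : Q l) * 1 := by rw [mul_one]; exact hv₂q
      rw [one_mul, hv₁q', htG.1] at e1
      rw [one_mul, hv₂q', htG.2.1] at e2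
      have h1 := par_key _ _ _ e1 e2
      have h2 := hv₂G.2.2 b 1
      rw [h1, hv₂q', mul_one] at h2
      exact absurd (show (0 : ZMod 2) = 1 from h2) (by decide)

/-! ### Surjectivity -/

/-- powers of `i` applied to `1` -/
noncomputable def iota (c : ZMod (2 * (2 * dd l))) : H := Nat.iterate I (c.val / dd l) ![1, 0, 0, 0]

theorem iota_add (c : ZMod (2 * (2 * dd l))) :
    iota l (((dd l : ℕ) : ZMod (2 * (2 * dd l))) + c) = I (iota l c) := by
  have hd : 0 < dd l := by positivity
  have : NeZero (2 * (2 * dd l)) := ⟨by positivity⟩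
  have hdv : (((dd l : ℕ) : ZMod (2 * (2 * dd l)))).val = dd l := by
    rw [ZMod.val_natCast, Nat.mod_eq_of_lt (by omega)]
  have hc := ZMod.val_lt c
  unfold iota
  by_cases h : dd l + c.val < 2 * (2 * dd l)
  · rw [ZMod.val_add, hdv, Nat.mod_eq_of_lt h, Nat.add_div_left _ hd, Function.iterate_succ_apply']
  · rw [ZMod.val_add, hdv]
    have h1 : (dd l + c.val) % (2 * (2 * dd l)) = c.val - 3 * dd l := by
      rw [Nat.mod_eq_sub_mod (by omega), Nat.mod_eq_of_lt (by omega)]
      omega
    have h2 : c.val / dd l = 3 := by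
      apply Nat.div_eq_of_lt_le <;> omega
    have h3 : (c.val - 3 * dd l) / dd l = 0 := Nat.div_eq_of_lt (by omega)
    rw [h1, h2, h3]
    change _ = I (I (I (I ![1, 0, 0, 0])))
    rw [I_I, I_I, neg_neg]
    rfl

theorem par_iota (c : ZMod (2 * (2 * dd l))) : par (iota l c) = 1 := by
  unfold iota
  generalize c.val / dd l = k
  induction k with
  | zero => simp [par]
  | succ k ih => rw [Function.iterate_succ_apply', par_I, ih]

/-- an equivariant function with odd values -/
noncomputable def oddF : Fn l := fun b g =>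
  match g with
  | a c => iota l c
  | xa c => J (iota l (c - b))

theorem oddF_a (b c : ZMod (2 * (2 * dd l))) : oddF l b (a c) = iota l c := rfl
theorem oddF_xa (b c : ZMod (2 * (2 * dd l))) : oddF l b (xa c) = J (iota l (c - b)) := rfl

theorem oddF_mem (q : Q l) (hq : chi q = 1) : (⟨oddF l, q⟩ : E l) ∈ G l := by
  refine ⟨?_, ?_, ?_⟩
  · rintro b (c | c)
    · change oddF l b (ad l * a c) = I (oddF l b (a c))
      rw [a_mul_a, oddF_a, oddF_a, iota_add]
    · change oddF l b (ad l * xa c) = I (oddF l b (xa c))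
      rw [a_mul_xa, oddF_xa, oddF_xa]
      have h : c - b = ((dd l : ℕ) : ZMod (2 * (2 * dd l))) +
          (c - ((dd l : ℕ) : ZMod (2 * (2 * dd l))) - b) := by ring
      rw [h, iota_add, I_J]
  · rintro b (c | c)
    · change oddF l b ((xa b : Q l) * a c) = J (oddF l b (a c))
      rw [xa_mul_a, oddF_xa, oddF_a, add_sub_cancel_left]
    · change oddF l b ((xa b : Q l) * xa c) = J (oddF l b (xa c))
      rw [xa_mul_xa, oddF_xa, oddF_a, J_J]
      have h : ((2 * dd l : ℕ) : ZMod (2 * (2 * dd l))) + c - b =
          ((dd l : ℕ) : ZMod (2 * (2 * dd l))) + (((dd l : ℕ) : ZMod (2 * (2 * dd l))) + (c - b)) := by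
        push_cast; ring
      rw [h, iota_add, iota_add, I_I]
  · rintro b (c | c)
    · change par (oddF l b (a c)) = chi q
      rw [oddF_a, par_iota, hq]
    · change par (oddF l b (xa c)) = chi q
      rw [oddF_xa, par_J, par_iota, hq]

theorem zero_mem (q : Q l) (hq : chi q = 0) : (⟨0, q⟩ : E l) ∈ G l := by
  refine ⟨?_, ?_, ?_⟩
  · intro b g
    exact I_zero.symm
  · intro b g
    exact J_zero.symm
  · intro b g
    change par 0 = chi q
    rw [par_zero, hq]

/-- The projection of `G` to the generalized quaternion group. -/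
def proj : G l →* Q l := ⟨⟨fun u => u.1.q, rfl⟩, fun _ _ => rfl⟩

theorem proj_surjective : Function.Surjective (proj l) := by
  intro q
  have hc : chi q = 0 ∨ chi q = 1 := by
    rcases q with c | c
    · left; rfl
    · right; rfl
  rcases hc with h | h
  · exact ⟨⟨_, zero_mem l q h⟩, rfl⟩
  · exact ⟨⟨_, oddF_mem l q h⟩, rfl⟩

theorem isClosed_G : IsClosed (G l : Set (E l)) := by
  have hfg : ∀ (b : ZMod (2 * (2 * dd l))) (g : Q l), Continuous (fun x : E l => x.f b g) :=
    fun b g => (continuous_apply g).comp ((continuous_apply b).comp E.continuous_f)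
  have h1 : (G l : Set (E l)) = {x | ∀ b g, x.f b (ad l * g) = I (x.f b g)} ∩
      ({x | ∀ b g, x.f b ((xa b : Q l) * g) = J (x.f b g)} ∩
        {x | ∀ b g, par (x.f b g) = chi x.q}) := rfl
  rw [h1]
  refine IsClosed.inter ?_ (IsClosed.inter ?_ ?_)
  · simp only [Set.ofPred_forall]
    exact isClosed_iInter fun b => isClosed_iInter fun g =>
      isClosed_eq (hfg _ _) (continuous_I.comp (hfg _ _))
  · simp only [Set.ofPred_forall]
    exact isClosed_iInter fun b => isClosed_iInter fun g =>
      isClosed_eq (hfg _ _) (continuous_J.comp (hfg _ _))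
  · simp only [Set.ofPred_forall]
    refine isClosed_iInter fun b => isClosed_iInter fun g => ?_
    have h2 : {x : E l | par (x.f b g) = chi x.q} =
        ({x : E l | par (x.f b g) = 0} ∩ (fun x : E l => x.q) ⁻¹' {q | chi q = 0}) ∪
        ({x : E l | par (x.f b g) = 1} ∩ (fun x : E l => x.q) ⁻¹' {q | chi q = 1}) := by
      ext x
      simp only [Set.mem_ofPred_eq, Set.mem_union, Set.mem_inter_iff, Set.mem_preimage]
      constructor
      · intro h
        have hc : ∀ t : ZMod 2, t = 0 ∨ t = 1 := by decide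
        rcases hc (chi x.q) with h0 | h0
        · left; exact ⟨h.trans h0, h0⟩
        · right; exact ⟨h.trans h0, h0⟩
      · rintro (⟨h, h'⟩ | ⟨h, h'⟩)
        · rw [h, h']
        · rw [h, h']
    rw [h2]
    let _ : TopologicalSpace (Q l) := ⊥
    have : DiscreteTopology (Q l) := ⟨rfl⟩
    exact (((isClosed_par 0).preimage (hfg b g)).inter
      ((isClosed_discrete _).preimage E.continuous_q)).union
      (((isClosed_par 1).preimage (hfg b g)).inter
      ((isClosed_discrete _).preimage E.continuous_q))

end main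

/-- For every `n ≥ 3` there is a profinite CA-group `G` with a closed abelian normal subgroup `N`
such that `G / N` is the generalized quaternion group of order `2 ^ n`. -/
theorem result (n : ℕ) (hn : 3 ≤ n) :
    ∃ (G : Type) (_ : Group G) (_ : TopologicalSpace G), IsProfinite G ∧ IsCA G ∧
      ∃ (N : Subgroup G) (_ : N.Normal), IsClosed (N : Set G) ∧
        (∀ a ∈ N, ∀ b ∈ N, a * b = b * a) ∧
        Nonempty (G ⧸ N ≃* QuaternionGroup (2 ^ (n - 2))) := by
  obtain ⟨l, rfl⟩ : ∃ l, n = l + 3 := ⟨n - 3, by omega⟩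
  have hpow : 2 ^ (l + 3 - 2) = 2 * dd l := by
    rw [show l + 3 - 2 = l + 1 by omega, pow_succ, mul_comm]
  rw [hpow]
  have hcomp : CompactSpace (G l) := isCompact_iff_compactSpace.1 (isClosed_G l).isCompact
  have htd : TotallyDisconnectedSpace (G l) := by
    constructor
    intro s _ hs x hx y hy
    apply Subtype.val_injective
    exact (hs.image Subtype.val continuous_subtype_val.continuousOn).subsingleton
      (Set.mem_image_of_mem _ hx) (Set.mem_image_of_mem _ hy)
  refine ⟨G l, inferInstance, inferInstance, ⟨inferInstance, hcomp, inferInstance, htd⟩, isCA l,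
    (proj l).ker, inferInstance, ?_, ?_,
    ⟨QuotientGroup.quotientKerEquivOfSurjective (proj l) (proj_surjective l)⟩⟩
  · let _ : TopologicalSpace (Q l) := ⊥
    have : DiscreteTopology (Q l) := ⟨rfl⟩
    have h1 : ((proj l).ker : Set (G l)) = (fun x : G l => x.1.q) ⁻¹' {1} := rfl
    rw [h1]
    exact (isClosed_discrete _).preimage (E.continuous_q.comp continuous_subtype_val)
  · rintro ⟨x, hx⟩ hx1 ⟨y, hy⟩ hy1
    have hx1' : x.q = 1 := hx1
    have hy1' : y.q = 1 := hy1
    apply Subtype.ext
    apply E.ext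
    · funext b g
      change (x * y).f b g = (y * x).f b g
      rw [E.mul_f, E.mul_f, hx1', hy1', mul_one, add_comm]
    · change (x * y).q = (y * x).q
      rw [E.mul_q, E.mul_q, hx1', hy1']

end Pool.Agent.Results.MP_427463_al.AllQuaternionQuotients
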